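import Mathlib
import Pool.Agent.Lib.MP_e1f2e6_al.Base

set_option autoImplicit false

namespace Pool.Agent.Results.MP_e1f2e6_al.InfiniteTower

open Pool.Agent.Lib.MP_e1f2e6_al

/-- The iterated automorphism group: `autIter G 0 = G` and `autIter G (n + 1)` is the full
automorphism group (under composition) of the abstract group `autIter G n`. -/
def autIter (G : GrpCat.{0}) : ℕ → GrpCat.{0}
  | 0 => G
  | n + 1 => GrpCat.of (MulAut (autIter G n))

lemma autIter_equiv : ∀ n : ℕ, Nonempty (autIter (GrpCat.of Gr) (n + 1) ≃* B n)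
  | 0 => by
      obtain ⟨e⟩ := base_step
      exact ⟨e.symm⟩
  | n + 1 => by
      obtain ⟨e⟩ := autIter_equiv n
      obtain ⟨f⟩ := B_step n
      exact ⟨(MulAut.congr e).trans f.symm⟩

/-- There is a finitely generated torsion-free nilpotent group `G` whose iterated automorphism
groups `α^n G`, `n ≥ 3`, are pairwise non-isomorphic; in particular the sequence
`α G, α^2 G, ...` represents infinitely many isomorphism classes. -/
theorem result :
    ∃ G : GrpCat.{0},
      (∃ S : Finset G, Subgroup.closure (S : Set G) = ⊤) ∧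
      (∀ g : G, IsOfFinOrder g → g = 1) ∧
      (∃ c : ℕ, (⊤ : Subgroup G).lowerCentralSeries c = ⊥) ∧
      ∀ n m : ℕ, 3 ≤ n → 3 ≤ m → n ≠ m → IsEmpty (autIter G n ≃* autIter G m) := by
  refine ⟨GrpCat.of Gr, ?_, ?_, ?_, ?_⟩
  · exact gr_fg.out
  · intro g hg
    obtain ⟨n, hn, h⟩ := isOfFinOrder_iff_pow_eq_one.mp hg
    exact Gr.pow_inj hn.ne' (by rw [h, one_pow])
  · exact Subgroup.nilpotent_iff_lowerCentralSeries.mp gr_nilpotent
  · intro n m hn hm hnm
    obtain ⟨k, rfl⟩ : ∃ k, n = k + 2 + 1 := ⟨n - 3, by omega⟩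
    obtain ⟨l, rfl⟩ : ∃ l, m = l + 2 + 1 := ⟨m - 3, by omega⟩
    obtain ⟨e1⟩ := autIter_equiv (k + 2)
    obtain ⟨e2⟩ := autIter_equiv (l + 2)
    refine ⟨fun e => ?_⟩
    have e' : B (k + 2) ≃* B (l + 2) := e1.symm.trans (e.trans e2)
    rcases lt_or_gt_of_ne (show k ≠ l by omega) with h | h
    · exact (B_not_iso h).false e'.symm
    · exact (B_not_iso h).false e'

end Pool.Agent.Results.MP_e1f2e6_al.InfiniteTower
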